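import Pool.Agent.Helper19.YV.Deg

/-!
# MP_de89cc_ag: almost all tuples of isogeny classes, exponential saving, uniform in `q`

`traceSet q g` is the set of the monic integral polynomials `h` of degree `g` all of whose complex
roots are real numbers in `[-2 √q, 2 √q]`.  `frob q h = T^g h(T + q/T)` is the corresponding
Frobenius (Weil) polynomial.  `splitF f` is the field generated over `ℚ` by the complex roots of
`f`.  `GoodF q h`, for a tuple `h = (h_1, ..., h_k)`, says that the polynomials `frob q (h_i)` are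
irreducible and that, for every nonzero integral polynomial `f` and every `i` such that
`F = splitF f` does not contain all roots of `frob q (h_i)`: if a monomial (with exponents in
`ℤ`) in the complex roots of all these polynomials has a power in `F`, then it contains every
root `z` of the `i`-th polynomial and `q / z` with the same exponent.  (If `F` contains the roots
of the `i`-th polynomial, the conclusion is false for the monomial `z`.)
`Exotic q h` says that some monomial in the complex roots of `frob q h` is `1` and contains a root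
`z` and `q / z` with different exponents.

There are absolute constants `d > 0` and `G` such that for all `q ≥ 16`, all primes `p`, all `k`,
all degrees `g_1, ..., g_k` and all sets `S_i ⊆ traceSet q g_i` which contain all `h` in
`traceSet q g_i` with `p ∤ h(0)` (the ordinary ones), with `S = S_1 × ... × S_k`:
(1) if `m ≥ G`, `1 ≤ B ≤ m ^ (4/5)`, `k ≤ m ^ B` and all degrees are between `m` and `m ^ B`, then
all but at most `k q ^ (- d m / B) #S` elements of `S` satisfy `GoodF` and have
`[splitF (frob q h_i) : ℚ] ≥ 2 ^ g_i` for all `i`;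
(2) if `p` divides `q` and `g_i ≥ G`, then the elements of `S` which do not satisfy `GoodF` and for
which `h_i` is exotic make up at least a share `q ^ (- 8 g_i)` of `S`.

(2): `h_i = (X - 1) (X³ + 2 X² - 3 q X - (5 q + 1)) u`, and `frob q h_i` is a multiple of
`(T² - T + q) Q Q'`, `Q = T³ + T² - π T - q π`, `π` a root of `T² - T + q`: the roots of `Q` have the
product `q π = π² (q / π)`.
-/

open Polynomial

namespace Pool.Agent.Results.MP_de89cc_ag.AlmostAllExponential

open Pool.Agent.Helper84.AA (traceSet frob)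
open Pool.Agent.Helper19.AAR (splitF)
open Pool.Agent.Helper86.YV (GoodF)
open Pool.Agent.Helper19.EX (Exotic)

theorem result : ∃ d : ℝ, 0 < d ∧ ∃ G : ℕ, ∀ q : ℕ, 16 ≤ q → ∀ p : ℕ, p.Prime →
    ∀ (k : ℕ) (g : Fin k → ℕ) (S : Fin k → Set ℤ[X]),
      (∀ i, {h ∈ traceSet q (g i) | ¬ (p : ℤ) ∣ h.coeff 0} ⊆ S i ∧ S i ⊆ traceSet q (g i)) →
    (∀ m ≥ G, ∀ B : ℝ, 1 ≤ B → B ≤ (m : ℝ) ^ (4 / 5 : ℝ) → (k : ℝ) ≤ (m : ℝ) ^ B →
      (∀ i, m ≤ g i ∧ (g i : ℝ) ≤ (m : ℝ) ^ B) →
      (({h : Fin k → ℤ[X] | (∀ i, h i ∈ S i) ∧ ¬ (GoodF q h ∧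
        ∀ i, 2 ^ g i ≤ Module.finrank ℚ (splitF (frob q (h i))))}.ncard : ℕ) : ℝ) ≤
        (k : ℝ) * (q : ℝ) ^ (-(d * m / B)) *
        (({h : Fin k → ℤ[X] | ∀ i, h i ∈ S i}.ncard : ℕ) : ℝ)) ∧
    (p ∣ q → ∀ i, G ≤ g i →
      (({h : Fin k → ℤ[X] | ∀ j, h j ∈ S j}.ncard : ℕ) : ℝ) ≤ (q : ℝ) ^ (8 * g i) *
      (({h : Fin k → ℤ[X] | (∀ j, h j ∈ S j) ∧
        ¬ GoodF q h ∧ Exotic q (h i)}.ncard : ℕ) : ℝ)) := by
  obtain ⟨d, hd, G, hG⟩ := Pool.Agent.Helper19.YV.good_upperD
  obtain ⟨G', hG'⟩ := Pool.Agent.Helper19.YV.exotic_lower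
  refine ⟨d, hd, max G G', fun q hq p hp k g S hS =>
    ⟨fun m hm B hB1 hB2 hk hg => ?_, fun hpq i hi => ?_⟩⟩
  · exact hG q hq p hp k m ((le_max_left _ _).trans hm) B hB1 hB2 hk g hg S hS
  · exact hG' q hq p hp hpq k g i ((le_max_right _ _).trans hi) S hS

end Pool.Agent.Results.MP_de89cc_ag.AlmostAllExponential
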