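import Pool.Agent.Helper78.AST.Final

/-!
# MP_de89cc_ag: the Tate conjecture for the powers of Jacobians of Artin-Schreier curves

`F` is a finite field of odd characteristic `p` with `q` elements, `f j` (`j ∈ J`) are polynomials over `F` of
degree `n + 1` prime to `p`, `C_j` the curve `w ^ p - w = f j (x)`.  Its first cohomology is the sum of the
parts `W_{j, c}`, `c ∈ (ℤ / p)ˣ`, of dimension `n`, on which `ℤ / p` acts through the character `c`; the Frobenius
eigenvalues `b ((j, c), i)` on `W_{j, c}` are given by their power sums, the exponential sums of `c f j` over all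
finite extensions of `F` (`IsEigen`).

The theorem: the eigenvalues exist, they have absolute value `√q`; the determinant of each block
`(j, c)` is given by the sum `S` of the critical values of `f j`, and the sum of the values of `f j` at `n` points is
constant (up to a square) on the variety where the first `⌊n/2⌋` elementary symmetric functions are those of the
critical points; for `n ≤ 3` and equal slopes, or for doubly transitive independent blocks, every multiplicative
relation between all the eigenvalues and `q` is generated by the relations of length at most two and the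
determinants.
-/

open Polynomial

namespace Pool.Agent.Results.MP_de89cc_ag.ArtinSchreierPowers

open Pool.Agent.Helper78.AST

theorem result (p : ℕ) [Fact p.Prime] (hp : p ≠ 2) (F : Type) [Field F] [Fintype F] [Algebra (ZMod p) F]
    (n : ℕ) (hn : ¬ p ∣ n + 1) (J : Type) [Fintype J] [DecidableEq J] (f : J → F[X])
    (hf : ∀ j, (f j).natDegree = n + 1) :
    -- the Frobenius eigenvalues exist, with absolute value `√q`
    (∀ (j : J) (c : (ZMod p)ˣ), (∃ b : Fin n → ℂ, IsEigen p F (f j) (c : ZMod p) b) ∧
      ∀ b : Fin n → ℂ, IsEigen p F (f j) (c : ZMod p) b → ∀ i, ‖b i‖ ^ 2 = (Fintype.card F : ℝ)) ∧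
    -- the determinants
    (∀ j : J, ∃ S : F, algebraMap F (AlgebraicClosure F) S =
        (((derivative (f j)).aroots (AlgebraicClosure F)).map fun θ => aeval θ (f j)).sum ∧
      ∀ (c : (ZMod p)ˣ) (b : Fin n → ℂ), IsEigen p F (f j) (c : ZMod p) b →
        (∀ m, n = 2 * m → ∏ i, b i =
          (Fintype.card F : ℂ) ^ m * ZMod.stdAddChar ((c : ZMod p) * Algebra.trace (ZMod p) F S)) ∧
        (∀ m, n = 2 * m + 1 → ∏ i, b i =
          -((Fintype.card F : ℂ) ^ m * ∑ y : F, ZMod.stdAddChar ((c : ZMod p) *
            Algebra.trace (ZMod p) F (S + (n + 1 : F) * (f j).leadingCoeff / 2 * y ^ 2))))) ∧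
    -- the cycles
    (∀ (j : J) (m : ℕ) (s : Multiset (AlgebraicClosure F)), (n = 2 * m ∨ n = 2 * m + 1) → s.card = n →
      (∀ i, i ≤ m → s.esymm i = ((derivative (f j)).aroots (AlgebraicClosure F)).esymm i) →
      (s.map fun x => aeval x (f j)).sum =
        (((derivative (f j)).aroots (AlgebraicClosure F)).map fun θ => aeval θ (f j)).sum +
        (if n = 2 * m + 1 then
          algebraMap F (AlgebraicClosure F) (((f j).natDegree : F) * (f j).leadingCoeff / 2) *
          (s.esymm (m + 1) - ((derivative (f j)).aroots (AlgebraicClosure F)).esymm (m + 1)) ^ 2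
        else 0)) ∧
    -- the relations
    ∀ b : (J × (ZMod p)ˣ) × Fin n → ℂ,
      (∀ (j : J) (c : (ZMod p)ˣ), IsEigen p F (f j) (c : ZMod p) (fun i => b ((j, c), i))) →
      ((n ≤ 3 ∧ SameSlope p F f) ∨ (TwoTransitive p b ∧ Independent p b)) →
      ∀ m : (J × (ZMod p)ˣ) × Fin n → ℤ,
        IsRel (Fintype.card F) b m ↔ m ∈ AddSubgroup.closure (shortRels (Fintype.card F) b) := by
  refine ⟨fun j c => ⟨exists_isEigen p F hp (f j) n (hf j) hn c, fun b hb i =>
    weil p F hp (f j) n (hf j) hn c b hb i⟩, fun j => determinants p F hp (f j) n (hf j) hn, ?_, ?_⟩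
  · intro j m s hm hs hes
    exact cycle (AlgebraicClosure F) (f j) m n (hf j) hm (two_ne_zero_of p F hp)
      (deg_ne_zero_of p F (f j) n (hf j) hn) s hs hes
  · intro b hb h m
    exact relations p F hp n f hf hn b hb h m

end Pool.Agent.Results.MP_de89cc_ag.ArtinSchreierPowers
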