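import Pool.Agent.Helper78.KUM.Main

/-!
# MP_de89cc_ag: the Tate conjecture for the powers of Jacobians of cyclic covers of the line

`F` is a finite field of characteristic `p` with `q` elements, `ℓ` an odd prime, `χ` a multiplicative character of `F` of order `ℓ`,
`C_j` (`j ∈ J`) the curve `y ^ ℓ = ∏ (x - a_(j,i)) ^ e_(j,i)` with `n + 1` different finite branch points `a_(j,i) ∈ F` and the branch point
infinity.  Its first cohomology is the sum of the parts `W_{j, c}`, `c ∈ (ℤ / ℓ)ˣ`, of dimension `n`, on which the covering group acts through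
the character `χ ^ c`; the Frobenius eigenvalues `b ((j, c), i)` on `W_{j, c}` are given by their power sums, the character
sums over all finite extensions of `F` (`IsEigen`).

The theorem: the eigenvalues exist, they have absolute value `√q`; the determinant of the block `(j, c)` is the Jacobi sum of the
Fermat hypersurface `∑ u_i / ω_i = 1`, whose points are the values at the branch points of the monic polynomials of degree `n`; if `-1` is a
power of `p` modulo `ℓ` then every multiplicative relation between all the eigenvalues and `q` is generated by the relations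
of length at most two and the determinants, for `n ≤ 3`, `p` a primitive root and equal slopes, or for independent blocks which
are doubly transitive, or transitive of prime length.
-/

open Polynomial

namespace Pool.Agent.Results.MP_de89cc_ag.KummerPowers

open Pool.Agent.Helper78.KUM
open Pool.Agent.Helper78.AST (IsRel block shortRels)

theorem result (ℓ : ℕ) [Fact ℓ.Prime] (h2 : ℓ ≠ 2) (F : Type) [Field F] [Fintype F] (χ : MulChar F ℂ)
    (hχ : orderOf χ = ℓ) (n : ℕ) (J : Type) [Fintype J] [DecidableEq J] (a : J → Fin (n + 1) → F)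
    (ha : ∀ j, Function.Injective (a j)) (e : J → Fin (n + 1) → ℕ) (he : ∀ j i, ¬ ℓ ∣ e j i)
    (hs : ∀ j, ¬ ℓ ∣ ∑ i, e j i) :
    -- the Frobenius eigenvalues exist, with absolute value `√q`; the determinants
    (∀ (j : J) (c : (ZMod ℓ)ˣ), (∃ b : Fin n → ℂ, IsEigen (χ ^ (c : ZMod ℓ).val) (a j) (e j) b) ∧
      ∀ b : Fin n → ℂ, IsEigen (χ ^ (c : ZMod ℓ).val) (a j) (e j) b →
        (∀ i, ‖b i‖ ^ 2 = (Fintype.card F : ℝ)) ∧
        ∏ i, b i = (-1) ^ n * jac (χ ^ (c : ZMod ℓ).val) (a j) (e j)) ∧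
    -- the cycles
    (∀ (K : Type) [Field K] [Algebra F K] (j : J) (u : Fin (n + 1) → K),
      ∑ i, u i / ∏ i' ∈ Finset.univ.erase i, (algebraMap F K (a j i) - algebraMap F K (a j i')) = 1 ↔
        ∃! g : K[X], g.Monic ∧ g.natDegree = n ∧ ∀ i, g.eval (algebraMap F K (a j i)) = u i) ∧
    -- the relations
    ∀ (p : ℕ) [CharP F p], (∃ k : ℕ, (p : ZMod ℓ) ^ k = -1) →
      ∀ b : (J × (ZMod ℓ)ˣ) × Fin n → ℂ,
      (∀ (j : J) (c : (ZMod ℓ)ˣ), IsEigen (χ ^ (c : ZMod ℓ).val) (a j) (e j) (fun i => b ((j, c), i))) →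
      ((n ≤ 3 ∧ Prim p ℓ ∧ SameSlope p ℓ χ a e) ∨
        ((TwoTransitive ℓ b ∨ (n.Prime ∧ Transitive ℓ b)) ∧ Independent ℓ b)) →
      ∀ m : (J × (ZMod ℓ)ˣ) × Fin n → ℤ,
        IsRel (Fintype.card F) b m ↔ m ∈ AddSubgroup.closure (shortRels (Fintype.card F) b) := by
  have hℓ : ℓ.Prime := Fact.out
  refine ⟨fun j c => ⟨?_, fun b hb => ⟨fun i => ?_, ?_⟩⟩, ?_, ?_⟩
  · exact exists_isEigen _ (char_pow_neg_one ℓ h2 χ hχ c) n (a j) (ha j) (e j) 0
      (char_pow_ne ℓ χ hχ c _ (he j 0))
  · exact weil ℓ hℓ _ (char_pow_pow ℓ χ hχ c) (char_pow_neg_one ℓ h2 χ hχ c) n (a j) (ha j) (e j)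
      (fun i => char_pow_ne ℓ χ hχ c _ (he j i)) (char_pow_ne ℓ χ hχ c _ (hs j)) b hb i
  · exact prod_eigen _ (char_pow_neg_one ℓ h2 χ hχ c) n (a j) (ha j) (e j) 0
      (char_pow_ne ℓ χ hχ c _ (he j 0)) b hb
  · intro K _ _ j u
    exact lagrange_iff n (fun i => algebraMap F K (a j i))
      (fun i i' h => ha j ((algebraMap F K).injective h)) u
  · intro p _ hneg b hb h m
    exact relations ℓ h2 χ hχ n a ha e he hs p hneg b hb h m

end Pool.Agent.Results.MP_de89cc_ag.KummerPowers
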