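import Pool.Agent.Helper86.YV.SignIff
import Pool.Agent.Helper19.AAR.SCdeg

/-!
# MP_de89cc_ag: sign codes: a computable criterion for the absence of exotic Tate classes

`frob q h` is the characteristic polynomial of Frobenius of a `g`-dimensional abelian variety over
the field with `q` elements, `h` the polynomial of the traces `π + q / π`; `splitF f` is the field
generated over `ℚ` by the complex roots of `f`.

The theorem: under the computable conditions (`OddPrime`, `FiniteTest`, `LargeDegree`, `Slopes`)
the degree of `L = splitF (frob q h)` over `K = splitF h` is larger than one, and for every number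
field `F = splitF f` and every root `z` of `frob q h`: all monomials in the roots of `frob q h` which
have a power in `F` contain `z` and `q / z` with the same exponent if and only if `z` is not in
`F (z + q / z)` (`F` is Galois over `ℚ`, so this condition does not depend on the root `z`; it holds
for instance if `[F : ℚ] < [L : K]`, or if the compositum `F K` does not contain `L`).  For `F = ℚ`
this is the absence of exotic Tate classes on all powers, for the field of the Frobenius eigenvalues
of another variety `Y` it is the absence of new Tate classes on the products of `Y` with these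
powers.
-/

open Polynomial Finset

namespace Pool.Agent.Results.MP_de89cc_ag.SignCodes

open Pool.Agent.Helper19.AAR (splitF)
open Pool.Agent.Helper19.SC (frob croots res OddPrime FiniteTest LargeDegree Slopes)

theorem result (q : ℕ) (h : ℤ[X]) (hq : 0 < q) (hm : h.Monic)
    -- an absolutely simple isogeny class
    (hirr : Irreducible (frob q h)) (hweil : ∀ z ∈ croots (frob q h), ‖z‖ ^ 2 = q)
    (habs : ∀ z ∈ croots (frob q h), ∀ z' ∈ croots (frob q h), ∀ k : ℕ, 0 < k →
      z ^ k = z' ^ k → z = z')
    -- every divisor `b > 2` of the dimension is excluded
    (hb : ∀ b, b ∣ h.natDegree → 2 < b →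
      OddPrime q h ∨ FiniteTest q h b ∨ LargeDegree q h b ∨
        (Slopes q h ∧ (b.Prime ∨ ((∃ k, b = 2 ^ k) ∧ ¬ IsSquare (res q h))))) :
    Module.finrank ℚ (splitF h) < Module.finrank ℚ (splitF (frob q h)) ∧
    -- the field `F = splitF f` and a root `z`
    ∀ f : ℤ[X], f ≠ 0 → ∀ z ∈ croots (frob q h),
      -- all relations over `F` have the same exponents at `z` and `q / z`
      ((∀ (n : ℂ → ℤ) (N : ℕ), N ≠ 0 → (∏ w ∈ croots (frob q h), w ^ n w) ^ N ∈ splitF f →
          n z = n (q / z)) ↔
        -- `z` is not in `F (z + q / z)`
        z ∉ splitF f ⊔ IntermediateField.adjoin ℚ {z + (q : ℂ) / z}) := by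
  refine ⟨Helper19.SC.finrank_lt q h hq hm hirr hweil habs, fun f hf z hz => ?_⟩
  refine Helper86.YV.sign_iff q h hq hm hirr (fun n' N' hN' hrel' => ?_) f hf z hz
  exact Helper19.SC.rational q h hq hm hirr hweil habs hb n' N' hN' 1
    (hrel'.trans (by norm_num))

end Pool.Agent.Results.MP_de89cc_ag.SignCodes
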